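import Pool.Agent.H22.N4.PlainI
import Pool.Agent.H70.EN.Fin

/-!
# A constant gap for windows whose length is an iterated logarithm: without hypotheses
-/

set_option autoImplicit false

namespace Pool.Agent.H22.N4

theorem mainI : PlainI := plainI Pool.Agent.H70.EN2.fini

end Pool.Agent.H22.N4
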