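import Pool.Agent.H6.N4D.Defs

/-!
# From one bounded length to all lengths

`SS f H n` is the largest sum of `f (n + h) e(θ h)` over `1 ≤ h ≤ H`.  A bound `(2 / π - c₀) H₁` for
the logarithmic average of `SS f H₁ n` at one length `H₁` gives the bound `(2 / π - c) H` for all
`H ≥ 1 / c` and `X ≥ H ^ (1 / c)`, with one constant `c`.
-/

set_option autoImplicit false

open Finset Pool.Agent.H6.N4D

namespace Pool.Agent.H22.N4

/-- the largest exponential sum of `f` on the window `(n, n + H]` -/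
noncomputable def SS (f : ℕ → ℝ) (H n : ℕ) : ℝ :=
  ⨆ θ : ℝ, ‖∑ h ∈ Icc 1 H, (f (n + h) : ℂ) * ee (θ * h)‖

variable {f : ℕ → ℝ}

lemma nsl (hf : ∀ n, |f n| ≤ 1) (s : Finset ℕ) (g : ℕ → ℕ) (θ : ℕ → ℝ) :
    ‖∑ h ∈ s, (f (g h) : ℂ) * ee (θ h)‖ ≤ s.card := by
  refine (norm_sum_le _ _).trans ?_
  refine (sum_le_sum (g := fun _ => (1 : ℝ)) fun h _ => ?_).trans (le_of_eq ?_)
  · rw [norm_mul, norm_ee, mul_one, Complex.norm_real, Real.norm_eq_abs]
    exact hf _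
  · simp

lemma bdd (hf : ∀ n, |f n| ≤ 1) (H n : ℕ) :
    BddAbove (Set.range fun θ : ℝ => ‖∑ h ∈ Icc 1 H, (f (n + h) : ℂ) * ee (θ * h)‖) := by
  refine ⟨H, ?_⟩
  rintro _ ⟨θ, rfl⟩
  have := nsl hf (Icc 1 H) (fun h => n + h) (fun h => θ * h)
  simpa using this

lemma le_SS (hf : ∀ n, |f n| ≤ 1) (H n : ℕ) (θ : ℝ) :
    ‖∑ h ∈ Icc 1 H, (f (n + h) : ℂ) * ee (θ * h)‖ ≤ SS f H n := le_ciSup (bdd hf H n) θ

lemma SS_nonneg (H n : ℕ) : 0 ≤ SS f H n := Real.iSup_nonneg fun _ => norm_nonneg _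

lemma SS_le (hf : ∀ n, |f n| ≤ 1) (H n : ℕ) : SS f H n ≤ H := by
  refine ciSup_le fun θ => ?_
  have := nsl hf (Icc 1 H) (fun h => n + h) (fun h => θ * h)
  simpa using this

/-- shifted windows -/
lemma shift_le (hf : ∀ n, |f n| ≤ 1) (a b n : ℕ) (θ : ℝ) :
    ‖∑ h ∈ Ioc a (a + b), (f (n + h) : ℂ) * ee (θ * h)‖ ≤ SS f b (n + a) := by
  have h1 : ∑ h ∈ Ioc a (a + b), (f (n + h) : ℂ) * ee (θ * h) =
      ee (θ * a) * ∑ h ∈ Icc 1 b, (f (n + a + h) : ℂ) * ee (θ * h) := by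
    rw [mul_sum]
    symm
    refine sum_nbij' (fun h => a + h) (fun h => h - a) ?_ ?_ ?_ ?_ ?_
    · intro h hh; rw [mem_Icc] at hh; rw [mem_Ioc]; omega
    · intro h hh; rw [mem_Ioc] at hh; rw [mem_Icc]; omega
    · intro h _; simp
    · intro h hh; rw [mem_Ioc] at hh; show a + (h - a) = h; omega
    · intro h _
      rw [add_assoc n a h, mul_left_comm, ← ee_add]
      congr 2
      push_cast; ring
  rw [h1, norm_mul, norm_ee, one_mul]
  exact le_SS hf _ _ _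

/-- splitting a window -/
lemma SS_add (hf : ∀ n, |f n| ≤ 1) (a b n : ℕ) : SS f (a + b) n ≤ SS f a n + SS f b (n + a) := by
  refine ciSup_le fun θ => ?_
  have h1 : ∑ h ∈ Icc 1 (a + b), (f (n + h) : ℂ) * ee (θ * h) =
      ∑ h ∈ Icc 1 a, (f (n + h) : ℂ) * ee (θ * h) +
        ∑ h ∈ Ioc a (a + b), (f (n + h) : ℂ) * ee (θ * h) := by
    rw [← sum_union]
    · congr 1
      ext h
      rw [mem_union, mem_Icc, mem_Icc, mem_Ioc]; omega
    · rw [disjoint_left]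
      intro h h1 h2
      rw [mem_Icc] at h1; rw [mem_Ioc] at h2; omega
  rw [h1]
  exact (norm_add_le _ _).trans (add_le_add (le_SS hf _ _ _) (shift_le hf _ _ _ _))

/-- splitting a window into many -/
lemma SS_mul (hf : ∀ n, |f n| ≤ 1) (H₁ k r n : ℕ) :
    SS f (k * H₁ + r) n ≤ ∑ j ∈ range k, SS f H₁ (n + j * H₁) + r := by
  induction k generalizing r with
  | zero => simpa using SS_le hf r n
  | succ k ih =>
    have h1 : (k + 1) * H₁ + r = (k * H₁ + 0) + (H₁ + r) := by ring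
    have h2 := SS_add hf (k * H₁ + 0) (H₁ + r) n
    have h3 := SS_add hf H₁ r (n + (k * H₁ + 0))
    have h4 := ih 0
    have h5 := SS_le hf r (n + (k * H₁ + 0) + H₁)
    rw [sum_range_succ, h1]
    simp only [add_zero] at h2 h3 h4 h5 ⊢
    push_cast at h4 h5 ⊢
    linarith

/-- the harmonic sum -/
lemma harm_le (N : ℕ) : ∑ n ∈ Icc 1 N, 1 / (n : ℝ) ≤ 1 + Real.log N := by
  have h := harmonic_le_one_add_log N
  rw [harmonic_eq_sum_Icc] at h
  push_cast at h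
  simpa using h

/-- a shifted sum -/
lemma shifted (hf : ∀ n, |f n| ≤ 1) (H H₁ a X : ℕ) (ha : a ≤ H) (hH : 1 ≤ H) :
    ∑ n ∈ Icc 1 X, 1 / (n : ℝ) * SS f H₁ (n + a) ≤
      H₁ * (1 + 2 * Real.log H) + (1 + 1 / H) * ∑ m ∈ Icc 1 (X + H), 1 / (m : ℝ) * SS f H₁ m := by
  have hH0 : (0 : ℝ) < H := by exact_mod_cast hH
  -- the part `n ≤ H ^ 2`
  have h1 : ∑ n ∈ (Icc 1 X).filter (fun n => n ≤ H ^ 2), 1 / (n : ℝ) * SS f H₁ (n + a) ≤
      H₁ * (1 + 2 * Real.log H) := by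
    have h2 : ∑ n ∈ (Icc 1 X).filter (fun n => n ≤ H ^ 2), 1 / (n : ℝ) * SS f H₁ (n + a) ≤
        ∑ n ∈ Icc 1 (H ^ 2), 1 / (n : ℝ) * H₁ := by
      refine (sum_le_sum (g := fun n : ℕ => 1 / (n : ℝ) * H₁) fun n _ => ?_).trans
        (sum_le_sum_of_subset_of_nonneg ?_ fun n _ _ => by positivity)
      · exact mul_le_mul_of_nonneg_left (SS_le hf _ _) (by positivity)
      · intro n hn
        rw [mem_filter, mem_Icc] at hn
        rw [mem_Icc]; omega
    have h3 := harm_le (H ^ 2)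
    rw [← sum_mul] at h2
    have h4 : Real.log ((H ^ 2 : ℕ) : ℝ) = 2 * Real.log H := by
      push_cast; rw [Real.log_pow]; norm_num
    rw [h4] at h3
    calc _ ≤ _ := h2
      _ ≤ (1 + 2 * Real.log H) * H₁ := mul_le_mul_of_nonneg_right h3 (by positivity)
      _ = _ := by ring
  -- the part `n > H ^ 2`
  have h5 : ∑ n ∈ (Icc 1 X).filter (fun n => ¬ n ≤ H ^ 2), 1 / (n : ℝ) * SS f H₁ (n + a) ≤
      (1 + 1 / H) * ∑ m ∈ Icc 1 (X + H), 1 / (m : ℝ) * SS f H₁ m := by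
    have h6 : ∑ n ∈ (Icc 1 X).filter (fun n => ¬ n ≤ H ^ 2), 1 / (n : ℝ) * SS f H₁ (n + a) ≤
        ∑ n ∈ (Icc 1 X).filter (fun n => ¬ n ≤ H ^ 2),
          (1 + 1 / (H : ℝ)) * (1 / ((n + a : ℕ) : ℝ) * SS f H₁ (n + a)) := by
      refine sum_le_sum fun n hn => ?_
      rw [mem_filter, mem_Icc] at hn
      have hn1 : (0 : ℝ) < n := by exact_mod_cast hn.1.1
      have hn2 : (H : ℝ) ^ 2 < n := by
        have : H ^ 2 < n := not_le.1 hn.2
        exact_mod_cast this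
      have ha' : (a : ℝ) ≤ H := by exact_mod_cast ha
      have hs := SS_nonneg (f := f) H₁ (n + a)
      rw [← mul_assoc]
      refine mul_le_mul_of_nonneg_right ?_ hs
      have h7 : (0 : ℝ) < ((n + a : ℕ) : ℝ) := by push_cast; positivity
      rw [mul_one_div, div_le_div_iff₀ hn1 h7]
      push_cast
      have h8 : (a : ℝ) ≤ 1 / H * n := by
        rw [one_div, inv_mul_eq_div, le_div_iff₀ hH0]
        nlinarith only [hn2, ha', hH0]
      linarith
    refine h6.trans ?_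
    rw [← mul_sum]
    refine mul_le_mul_of_nonneg_left ?_ (by positivity)
    have h9 : ∑ n ∈ (Icc 1 X).filter (fun n => ¬ n ≤ H ^ 2),
        (1 / ((n + a : ℕ) : ℝ) * SS f H₁ (n + a)) =
        ∑ m ∈ ((Icc 1 X).filter (fun n => ¬ n ≤ H ^ 2)).image (fun n => n + a),
          (1 / (m : ℝ) * SS f H₁ m) := by
      rw [sum_image]
      intro x _ y _ hxy
      simpa using hxy
    rw [h9]
    refine sum_le_sum_of_subset_of_nonneg ?_ fun m _ _ =>
      mul_nonneg (by positivity) (SS_nonneg _ _)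
    intro m hm
    rw [mem_image] at hm
    obtain ⟨n, hn, rfl⟩ := hm
    rw [mem_filter, mem_Icc] at hn
    rw [mem_Icc]; omega
  rw [← sum_filter_add_sum_filter_not (Icc 1 X) (fun n => n ≤ H ^ 2)]
  exact add_le_add h1 h5

/-- the gap at one length -/
def Gap1 (f : ℕ → ℝ) : Prop := ∃ (c : ℝ) (H X₀ : ℕ), 0 < c ∧ 1 ≤ H ∧ ∀ X : ℕ, X₀ ≤ X →
  ∑ n ∈ Icc 1 X, 1 / (n : ℝ) * SS f H n ≤ (2 / Real.pi - c) * H * Real.log X

/-- the gap at all lengths, with one constant -/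
def GapA (f : ℕ → ℝ) : Prop := ∃ c : ℝ, 0 < c ∧ ∀ H X : ℕ, 1 / c ≤ H → (H : ℝ) ^ (1 / c) ≤ X →
  ∑ n ∈ Icc 1 X, 1 / (n : ℝ) * SS f H n ≤ (2 / Real.pi - c) * H * Real.log X

theorem gapA_of_gap1 (hf : ∀ n, |f n| ≤ 1) (h : Gap1 f) : GapA f := by
  obtain ⟨c₀, H₁, X₀, hc₀, hH₁, h⟩ := h
  -- we may assume `c₀ ≤ 1 / 2`
  have hpi3 := Real.pi_gt_three
  have hpi4 := Real.pi_lt_four
  have hpi0 : 0 < Real.pi := Real.pi_pos
  obtain ⟨c₁, hc₁, hc₁', h⟩ : ∃ c₁ : ℝ, 0 < c₁ ∧ c₁ ≤ 1 / 2 ∧ ∀ X : ℕ, X₀ ≤ X →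
      ∑ n ∈ Icc 1 X, 1 / (n : ℝ) * SS f H₁ n ≤ (2 / Real.pi - c₁) * H₁ * Real.log X := by
    refine ⟨min c₀ (1 / 2), lt_min hc₀ (by norm_num), min_le_right _ _, fun X hX => ?_⟩
    refine (h X hX).trans ?_
    have hl : 0 ≤ Real.log (X : ℝ) := Real.log_natCast_nonneg X
    refine mul_le_mul_of_nonneg_right (mul_le_mul_of_nonneg_right ?_ (by positivity)) hl
    linarith [min_le_left c₀ (1 / 2 : ℝ)]
  have hp1 : 1 / 2 ≤ 2 / Real.pi := by
    rw [div_le_div_iff₀ (by norm_num) hpi0]; linarith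
  have hp2 : 2 / Real.pi ≤ 1 := by
    rw [div_le_one hpi0]; linarith
  set D : ℝ := 9 + 2 * H₁ with hD
  have hD0 : 0 < D := by positivity
  have hX1 : (0 : ℝ) < X₀ + 1 := by positivity
  refine ⟨min (1 / 2) (min (c₁ / D) (1 / (X₀ + 1))), ?_, ?_⟩
  · exact lt_min (by norm_num) (lt_min (by positivity) (by positivity))
  set c : ℝ := min (1 / 2) (min (c₁ / D) (1 / (X₀ + 1))) with hc
  have hc0 : 0 < c := lt_min (by norm_num) (lt_min (by positivity) (by positivity))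
  have hc2 : c ≤ 1 / 2 := min_le_left _ _
  have hc3 : c * D ≤ c₁ := by
    rw [← le_div_iff₀ hD0]; exact (min_le_right _ _).trans (min_le_left _ _)
  have hc4 : (X₀ : ℝ) + 1 ≤ 1 / c := by
    rw [le_div_iff₀ hc0, mul_comm, ← le_div_iff₀ hX1]
    exact (min_le_right _ _).trans (min_le_right _ _)
  intro H X hH hX
  have hH2 : (2 : ℝ) ≤ H := by
    refine le_trans ?_ hH
    rw [le_div_iff₀ hc0]; linarith
  have hH0 : (0 : ℝ) < H := by linarith
  have hH1n : 1 ≤ H := by exact_mod_cast (by linarith : (1 : ℝ) ≤ H)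
  have hcinv : (2 : ℝ) ≤ 1 / c := by rw [le_div_iff₀ hc0]; linarith
  -- `X` is large
  have hXa : (X₀ : ℝ) + 1 ≤ X := by
    have h1 : (2 : ℝ) ^ (1 / c) ≤ (H : ℝ) ^ (1 / c) :=
      Real.rpow_le_rpow (by norm_num) hH2 (by positivity)
    have h2 : 1 / c ≤ (2 : ℝ) ^ (1 / c) := by
      have h3 : (1 / c) * Real.log 2 + 1 ≤ Real.exp ((1 / c) * Real.log 2) := Real.add_one_le_exp _
      have h3' : (1 / c) * Real.log 2 / 2 + 1 ≤ Real.exp ((1 / c) * Real.log 2 / 2) :=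
        Real.add_one_le_exp _
      have h4 : (2 : ℝ) ^ (1 / c) = Real.exp ((1 / c) * Real.log 2) := by
        rw [Real.rpow_def_of_pos (by norm_num), mul_comm]
      have h5 : Real.exp ((1 / c) * Real.log 2) = Real.exp ((1 / c) * Real.log 2 / 2) ^ 2 := by
        rw [← Real.exp_nat_mul]; congr 1; push_cast; ring
      have h6 : 0.69 < Real.log 2 := by linarith [Real.log_two_gt_d9]
      have h7 : 0 < 1 / c := by positivity
      rw [h4, h5]
      have h8 : (1 / c) * Real.log 2 / 2 + 1 ≥ (1 / c) * 0.345 + 1 := by nlinarith only [h6, h7]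
      have h9 : ((1 / c) * 0.345 + 1) ^ 2 ≤ Real.exp ((1 / c) * Real.log 2 / 2) ^ 2 := by
        apply pow_le_pow_left₀ (by positivity)
        linarith
      nlinarith only [h9, h7, sq_nonneg ((1 / c) * 0.345 - 1)]
    linarith
  have hXX : X₀ ≤ X := by exact_mod_cast (by linarith : (X₀ : ℝ) ≤ X)
  have hX1n : 1 ≤ X := by
    have : (1 : ℝ) ≤ X := by linarith [(Nat.cast_nonneg X₀ : (0 : ℝ) ≤ X₀)]
    exact_mod_cast this
  have hX0 : (0 : ℝ) < X := by exact_mod_cast hX1n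
  have hlog : Real.log H ≤ c * Real.log X := by
    have h1 := Real.log_le_log (by positivity) hX
    rw [Real.log_rpow hH0] at h1
    have h2 : c * (1 / c * Real.log H) ≤ c * Real.log X := mul_le_mul_of_nonneg_left h1 hc0.le
    have h3 : c * (1 / c * Real.log H) = Real.log H := by field_simp
    linarith
  have hlog2 : 0.69 ≤ Real.log H := by
    have := Real.log_le_log (by norm_num) hH2
    linarith [Real.log_two_gt_d9]
  have hlogX : 0 < Real.log X := by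
    by_contra hcon
    push Not at hcon
    nlinarith only [hlog, hlog2, hcon, hc0]
  have hHX : (H : ℝ) ≤ X := by
    refine le_trans ?_ hX
    nth_rewrite 1 [← Real.rpow_one (H : ℝ)]
    exact Real.rpow_le_rpow_of_exponent_le (by linarith) (by linarith)
  -- the main estimate
  obtain ⟨k, r, hr, hk⟩ : ∃ k r : ℕ, r < H₁ ∧ H = k * H₁ + r :=
    ⟨H / H₁, H % H₁, Nat.mod_lt _ hH₁, by rw [mul_comm]; exact (Nat.div_add_mod H H₁).symm⟩
  have hkH : (k : ℝ) * H₁ ≤ H := by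
    have : k * H₁ ≤ H := by omega
    exact_mod_cast this
  have hr' : (r : ℝ) ≤ H₁ := by exact_mod_cast hr.le
  have e1 : ∑ n ∈ Icc 1 X, 1 / (n : ℝ) * SS f H n ≤
      ∑ j ∈ range k, ∑ n ∈ Icc 1 X, 1 / (n : ℝ) * SS f H₁ (n + j * H₁) +
        ∑ n ∈ Icc 1 X, 1 / (n : ℝ) * r := by
    rw [sum_comm, ← sum_add_distrib]
    refine sum_le_sum fun n _ => ?_
    rw [← mul_sum, ← mul_add]
    refine mul_le_mul_of_nonneg_left ?_ (by positivity)
    have := SS_mul hf H₁ k r n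
    rw [← hk] at this
    exact this
  have e2 : ∀ j ∈ range k, ∑ n ∈ Icc 1 X, 1 / (n : ℝ) * SS f H₁ (n + j * H₁) ≤
      H₁ * (1 + 2 * Real.log H) +
        (1 + 1 / H) * ((2 / Real.pi - c₁) * H₁ * Real.log ((X + H : ℕ) : ℝ)) := by
    intro j hj
    rw [mem_range] at hj
    have h1 : j * H₁ ≤ H := by
      have : j * H₁ ≤ k * H₁ := Nat.mul_le_mul_right _ hj.le
      omega
    refine (shifted hf H H₁ (j * H₁) X h1 hH1n).trans ?_
    have h2 := h (X + H) (by omega)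
    have h3 := mul_le_mul_of_nonneg_left h2 (by positivity : (0 : ℝ) ≤ 1 + 1 / H)
    linarith
  have e3 := sum_le_sum e2
  rw [sum_const, card_range, nsmul_eq_mul] at e3
  have e4 : ∑ n ∈ Icc 1 X, 1 / (n : ℝ) * (r : ℝ) ≤ (1 + Real.log X) * H₁ := by
    rw [← sum_mul]
    exact mul_le_mul (harm_le X) hr' (by positivity) (by positivity)
  have e5 : Real.log ((X + H : ℕ) : ℝ) ≤ (1 + 2 * c) * Real.log X := by
    have h1 : ((X + H : ℕ) : ℝ) ≤ 2 * X := by push_cast; linarith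
    have h2 := Real.log_le_log (by push_cast; positivity) h1
    rw [Real.log_mul (by norm_num) hX0.ne'] at h2
    have h3 : Real.log 2 ≤ Real.log H := Real.log_le_log (by norm_num) hH2
    nlinarith only [h2, h3, hlog, mul_pos hc0 hlogX]
  have e6 : 1 / (H : ℝ) ≤ c := by
    rw [div_le_iff₀ hH0]
    rw [div_le_iff₀ hc0] at hH
    linarith
  set L := Real.log (X : ℝ) with hL
  set p := 2 / Real.pi - c₁ with hp
  have hp0 : 0 ≤ p := by rw [hp]; linarith
  have hp1' : p ≤ 1 := by rw [hp]; linarith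
  have e7 : (1 + 1 / (H : ℝ)) * (p * H₁ * Real.log ((X + H : ℕ) : ℝ)) ≤
      (1 + c) * (p * H₁ * ((1 + 2 * c) * L)) := by
    apply mul_le_mul (by linarith) _ _ (by linarith)
    · exact mul_le_mul_of_nonneg_left e5 (by positivity)
    · have : 0 ≤ Real.log ((X + H : ℕ) : ℝ) := Real.log_natCast_nonneg _
      positivity
  -- all terms over `H L`
  have hk0 : (0 : ℝ) ≤ k := by positivity
  have e8 : ∑ n ∈ Icc 1 X, 1 / (n : ℝ) * SS f H n ≤
      H * (1 + 2 * Real.log H) + H * ((1 + c) * (p * ((1 + 2 * c) * L))) + (1 + L) * H₁ := by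
    have h1 : (k : ℝ) * (H₁ * (1 + 2 * Real.log H) +
        (1 + 1 / H) * (p * H₁ * Real.log ((X + H : ℕ) : ℝ))) ≤
        k * (H₁ * (1 + 2 * Real.log H) + (1 + c) * (p * H₁ * ((1 + 2 * c) * L))) :=
      mul_le_mul_of_nonneg_left (by linarith) hk0
    have h2 : (k : ℝ) * (H₁ * (1 + 2 * Real.log H) + (1 + c) * (p * H₁ * ((1 + 2 * c) * L))) =
        (k * H₁) * ((1 + 2 * Real.log H) + (1 + c) * (p * ((1 + 2 * c) * L))) := by ring
    have h3 : ((k : ℝ) * H₁) * ((1 + 2 * Real.log H) + (1 + c) * (p * ((1 + 2 * c) * L))) ≤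
        H * ((1 + 2 * Real.log H) + (1 + c) * (p * ((1 + 2 * c) * L))) :=
      mul_le_mul_of_nonneg_right hkH (by positivity)
    linarith
  refine e8.trans ?_
  -- the bounds of the three terms
  have hL1 : 1 ≤ 2 * c * L := by linarith only [hlog, hlog2]
  have t1 : (H : ℝ) * (1 + 2 * Real.log H) ≤ H * (4 * c * L) :=
    mul_le_mul_of_nonneg_left (by linarith) hH0.le
  have t2 : (H : ℝ) * ((1 + c) * (p * ((1 + 2 * c) * L))) ≤ H * ((p + 4 * c) * L) := by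
    refine mul_le_mul_of_nonneg_left ?_ hH0.le
    have h1 : (1 + c) * (p * ((1 + 2 * c) * L)) = ((1 + c) * (1 + 2 * c) * p) * L := by ring
    rw [h1]
    refine mul_le_mul_of_nonneg_right ?_ hlogX.le
    have h2 : (1 + c) * (1 + 2 * c) ≤ 1 + 4 * c := by nlinarith only [hc0, hc2]
    have h3 : (1 + c) * (1 + 2 * c) * p ≤ (1 + 4 * c) * p := mul_le_mul_of_nonneg_right h2 hp0
    nlinarith only [h3, mul_nonneg hc0.le (sub_nonneg.2 hp1')]
  have t3 : (1 + L) * (H₁ : ℝ) ≤ H * (2 * H₁ * c * L) := by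
    have h1 : 1 ≤ c * H := by
      rw [div_le_iff₀ hc0] at hH; linarith
    have h2 : (1 + L) ≤ 2 * L := by nlinarith only [hL1, mul_nonneg (sub_nonneg.2 hc2) hlogX.le]
    have h3 : (1 + L) * (H₁ : ℝ) ≤ 2 * L * H₁ := mul_le_mul_of_nonneg_right h2 (by positivity)
    have h4 : 2 * L * (H₁ : ℝ) * 1 ≤ 2 * L * H₁ * (c * H) :=
      mul_le_mul_of_nonneg_left h1 (by positivity)
    linarith only [h3, h4]
  have t4 : (H : ℝ) * (4 * c * L) + H * ((p + 4 * c) * L) + H * (2 * H₁ * c * L) =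
      H * L * (p + (8 + 2 * H₁) * c) := by ring
  have t5 : p + (8 + 2 * H₁) * c ≤ 2 / Real.pi - c := by
    have h1 := hc3
    rw [hD] at h1
    rw [hp]
    linarith only [h1]
  have t6 : (H : ℝ) * L * (p + (8 + 2 * H₁) * c) ≤ H * L * (2 / Real.pi - c) :=
    mul_le_mul_of_nonneg_left t5 (by positivity)
  calc _ ≤ _ := add_le_add (add_le_add t1 t2) t3
    _ = _ := t4
    _ ≤ _ := t6
    _ = _ := by ring

end Pool.Agent.H22.N4
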