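import Pool.Agent.H22.N4.Final
import Pool.Agent.H93.EB.Targets

/-!
# The statements for Liouville's function
-/

set_option autoImplicit false

open Finset Pool.Agent.H6.N4D Pool.Agent.H93.EB

namespace Pool.Agent.H22.N4

/-- Liouville's function -/
noncomputable def lio (n : ℕ) : ℝ := (-1) ^ ArithmeticFunction.cardFactors n

lemma lio_Lio : Lio lio := by
  constructor
  · intro n
    exact neg_one_pow_eq_or ℝ _
  · intro p n hp hn
    unfold lio
    rw [ArithmeticFunction.cardFactors_mul hp.ne_zero (by omega),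
      ArithmeticFunction.cardFactors_apply_prime hp, pow_add, pow_one]
    ring

lemma abs_lio (n : ℕ) : |lio n| ≤ 1 := by
  unfold lio
  rw [abs_pow, abs_neg, abs_one, one_pow]

lemma norm_cr_le {lam : ℕ → ℝ} (h : ∀ n, |lam n| ≤ 1) (N n : ℕ) (θ : ℝ) : ‖cr lam N n θ‖ ≤ 1 := by
  unfold cr
  rw [norm_div, Complex.norm_natCast]
  have h1 := nsl h (Ioc n (n + N)) (fun m => m) (fun m => -(θ * m))
  rw [Nat.card_Ioc, Nat.add_sub_cancel_left] at h1
  rcases Nat.eq_zero_or_pos N with h0 | h0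
  · subst h0; simp
  · rw [div_le_one (by exact_mod_cast h0)]
    exact h1

/-- the two forms of the largest exponential sum -/
lemma SS_le_M {lam : ℕ → ℝ} (h : ∀ n, |lam n| ≤ 1) (H n : ℕ) :
    SS lam H n ≤ H * M lam H n := by
  rcases Nat.eq_zero_or_pos H with h0 | h0
  · subst h0
    unfold SS
    simp
  have hH : (0 : ℝ) < H := by exact_mod_cast h0
  refine ciSup_le fun θ => ?_
  have h1 : ∑ k ∈ Icc 1 H, (lam (n + k) : ℂ) * ee (θ * k) =
      ee (-(θ * n)) * (H * cr lam H n (-θ)) := by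
    unfold cr
    rw [mul_div_cancel₀ _ (by exact_mod_cast h0.ne'), mul_sum]
    refine sum_nbij' (fun k => n + k) (fun m => m - n) ?_ ?_ ?_ ?_ ?_
    · intro k hk; rw [mem_Icc] at hk; rw [mem_Ioc]; omega
    · intro m hm; rw [mem_Ioc] at hm; rw [mem_Icc]; omega
    · intro k _; simp
    · intro m hm; rw [mem_Ioc] at hm; show n + (m - n) = m; omega
    · intro k _
      rw [mul_left_comm, ← ee_add]
      congr 2
      push_cast; ring
  have hb : BddAbove (Set.range fun θ : ℝ => ‖cr lam H n θ‖) := by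
    refine ⟨1, ?_⟩
    rintro _ ⟨θ, rfl⟩
    exact norm_cr_le h H n θ
  rw [h1, norm_mul, norm_ee, one_mul, norm_mul, Complex.norm_natCast]
  exact mul_le_mul_of_nonneg_left (le_ciSup hb (-θ)) hH.le

lemma sum_SS_le {lam : ℕ → ℝ} (h : ∀ n, |lam n| ≤ 1) (H X : ℕ) :
    ∑ n ∈ Icc 1 X, 1 / (n : ℝ) * SS lam H n ≤ H * lg X (fun n => M lam H n) := by
  unfold lg
  rw [mul_sum]
  refine sum_le_sum fun n _ => ?_
  have := SS_le_M h H n
  calc 1 / (n : ℝ) * SS lam H n ≤ 1 / (n : ℝ) * (H * M lam H n) :=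
        mul_le_mul_of_nonneg_left this (by positivity)
    _ = _ := by ring

lemma gap1_of_fin2 (h : T_FIN2) : Gap1 lio := by
  obtain ⟨c, H₀, hc, h⟩ := h
  obtain ⟨X₀, h⟩ := h (max H₀ 1) (le_max_left _ _)
  refine ⟨c, max H₀ 1, X₀, hc, le_max_right _ _, fun X hX => ?_⟩
  have h1 := h X lio hX lio_Lio
  refine (sum_SS_le abs_lio _ _).trans ?_
  have h2 := mul_le_mul_of_nonneg_left h1 (by positivity : (0 : ℝ) ≤ ((max H₀ 1 : ℕ) : ℝ))
  linarith

/-- the exponential sums in the plain notation -/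
lemma plain_sum (H n : ℕ) (θ : ℝ) :
    ‖∑ h ∈ Icc 1 H, (-1 : ℂ) ^ ArithmeticFunction.cardFactors (n + h) *
      Complex.exp (2 * Real.pi * Complex.I * (θ * h))‖ ≤ SS lio H n := by
  have h1 := le_SS abs_lio H n θ
  refine le_trans (le_of_eq ?_) h1
  congr 1
  refine sum_congr rfl fun h _ => ?_
  unfold lio ee
  push_cast
  congr 2
  ring

/-- the statement for all lengths -/
def PlainA : Prop := ∃ c : ℝ, 0 < c ∧ ∀ (H X : ℕ) (θ : ℕ → ℝ), 1 / c ≤ H →
  (H : ℝ) ^ (1 / c) ≤ X →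
    ∑ n ∈ Icc 1 X, 1 / (n : ℝ) * ‖∑ h ∈ Icc 1 H,
      (-1 : ℂ) ^ ArithmeticFunction.cardFactors (n + h) *
        Complex.exp (2 * Real.pi * Complex.I * (θ n * h))‖ ≤
      (2 / Real.pi - c) * H * Real.log X

/-- the statement for long windows -/
def PlainB : Prop := ∃ c : ℝ, 0 < c ∧ ∀ (H X : ℕ) (θ : ℕ → ℝ), 1 / c ≤ X →
  Real.log (Real.log X) ^ (1 / c) ≤ H → (H : ℝ) ^ (1 / c) ≤ X →
    ∑ n ∈ Icc 1 X, 1 / (n : ℝ) * ‖∑ h ∈ Icc 1 H,
      (-1 : ℂ) ^ ArithmeticFunction.cardFactors (n + h) *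
        Complex.exp (2 * Real.pi * Complex.I * (θ n * h))‖ ≤
      (2 / Real.pi - c) * H * Real.log X

theorem plainA (h : T_FIN2) : PlainA := by
  obtain ⟨c, hc, h⟩ := gapA_of_gap1 abs_lio (gap1_of_fin2 h)
  refine ⟨c, hc, fun H X θ hH hX => ?_⟩
  refine (sum_le_sum fun n _ => ?_).trans (h H X hH hX)
  exact mul_le_mul_of_nonneg_left (plain_sum H n (θ n)) (by positivity)

theorem plainB (h : T_FIN1) : PlainB := by
  obtain ⟨c, C, X₀, hc, h⟩ := h
  have hex : ∃ X₁ : ℕ, ∀ X : ℕ, X₁ ≤ X → 1 ≤ Real.log (Real.log (X : ℝ)) := by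
    have h2 := (tendsto_natCast_atTop_atTop (R := ℝ)).eventually
      ((Real.tendsto_log_atTop.comp Real.tendsto_log_atTop).eventually_ge_atTop 1)
    rw [Filter.eventually_atTop] at h2
    exact h2
  obtain ⟨X₁, hX₁⟩ := hex
  set c' : ℝ := min c (min (1 / (C + 1)) (1 / (max X₀ X₁ + 1 : ℕ))) with hc'
  have p1 : (0 : ℝ) < 1 / (C + 1) := by positivity
  have p2 : (0 : ℝ) < 1 / (max X₀ X₁ + 1 : ℕ) := by positivity
  have hc0 : 0 < c' := lt_min hc (lt_min p1 p2)
  have q1 : c' ≤ c := min_le_left _ _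
  have q2 : (C : ℝ) + 1 ≤ 1 / c' := by
    have h1 : c' ≤ 1 / (C + 1) := (min_le_right _ _).trans (min_le_left _ _)
    rw [le_div_iff₀ (by positivity)] at h1
    rw [le_div_iff₀ hc0]; linarith
  have q3 : ((max X₀ X₁ + 1 : ℕ) : ℝ) ≤ 1 / c' := by
    have h1 : c' ≤ 1 / (max X₀ X₁ + 1 : ℕ) := (min_le_right _ _).trans (min_le_right _ _)
    rw [le_div_iff₀ (by positivity)] at h1
    rw [le_div_iff₀ hc0]; linarith
  refine ⟨c', hc0, fun H X θ hX hH1 hH2 => ?_⟩
  have hXX : max X₀ X₁ + 1 ≤ X := by exact_mod_cast q3.trans hX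
  have hll := hX₁ X (by omega)
  have hlog : 0 ≤ Real.log (X : ℝ) := Real.log_natCast_nonneg X
  have r1 : Real.log (Real.log X) ^ C ≤ H := by
    refine le_trans ?_ hH1
    rw [← Real.rpow_natCast]
    exact Real.rpow_le_rpow_of_exponent_le hll (by linarith)
  have hH0 : (0 : ℝ) < H := by
    have : (0 : ℝ) < Real.log (Real.log X) ^ C := by positivity
    linarith
  have r2 : Real.log H ≤ c * Real.log X := by
    have h1 := Real.log_le_log (by positivity) hH2
    rw [Real.log_rpow hH0, one_div, inv_mul_eq_div, div_le_iff₀ hc0] at h1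
    have h2 : Real.log X * c' ≤ Real.log X * c := mul_le_mul_of_nonneg_left q1 hlog
    linarith
  have h1 := h X H lio (by omega) lio_Lio r1 r2
  have h3 : ∑ n ∈ Icc 1 X, 1 / (n : ℝ) * ‖∑ h ∈ Icc 1 H,
      (-1 : ℂ) ^ ArithmeticFunction.cardFactors (n + h) *
        Complex.exp (2 * Real.pi * Complex.I * (θ n * h))‖ ≤
      ∑ n ∈ Icc 1 X, 1 / (n : ℝ) * SS lio H n := by
    refine sum_le_sum fun n _ => ?_
    exact mul_le_mul_of_nonneg_left (plain_sum H n (θ n)) (by positivity)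
  refine h3.trans ((sum_SS_le abs_lio _ _).trans ?_)
  have h4 := mul_le_mul_of_nonneg_left h1 hH0.le
  have h5 : H * ((2 / Real.pi - c) * Real.log X) ≤ H * ((2 / Real.pi - c') * Real.log X) :=
    mul_le_mul_of_nonneg_left (mul_le_mul_of_nonneg_right (by linarith) hlog) hH0.le
  linarith

end Pool.Agent.H22.N4
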