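import Pool.Agent.H22.N4.Plain
import Pool.Agent.H70.EN.FINI

/-!
# The statement for windows whose length is an iterated logarithm
-/

set_option autoImplicit false

open Finset Pool.Agent.H6.N4D

namespace Pool.Agent.H22.N4

/-- the statement for windows that are longer than an iterated logarithm -/
def PlainI : Prop := ∀ i : ℕ, ∃ c : ℝ, 0 < c ∧ ∀ (H X : ℕ) (θ : ℕ → ℝ), 1 / c ≤ X →
  Real.log^[i] X ≤ H → (H : ℝ) ^ (1 / c) ≤ X →
    ∑ n ∈ Icc 1 X, 1 / (n : ℝ) * ‖∑ h ∈ Icc 1 H,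
      (-1 : ℂ) ^ ArithmeticFunction.cardFactors (n + h) *
        Complex.exp (2 * Real.pi * Complex.I * (θ n * h))‖ ≤
      (2 / Real.pi - c) * H * Real.log X

theorem plainI (h : Pool.Agent.H70.EN2.T_FINI) : PlainI := by
  intro i
  obtain ⟨c, X₀, hc, h⟩ := h i
  set c' : ℝ := min c (1 / (X₀ + 1 : ℕ)) with hc'
  have p2 : (0 : ℝ) < 1 / (X₀ + 1 : ℕ) := by positivity
  have hc0 : 0 < c' := lt_min hc p2
  have q1 : c' ≤ c := min_le_left _ _
  have q3 : ((X₀ + 1 : ℕ) : ℝ) ≤ 1 / c' := by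
    have h1 : c' ≤ 1 / (X₀ + 1 : ℕ) := min_le_right _ _
    rw [le_div_iff₀ (by positivity)] at h1
    rw [le_div_iff₀ hc0]; linarith
  refine ⟨c', hc0, fun H X θ hX hH1 hH2 => ?_⟩
  have hXX : X₀ + 1 ≤ X := by exact_mod_cast q3.trans hX
  have hlog : 0 ≤ Real.log (X : ℝ) := Real.log_natCast_nonneg X
  rcases Nat.eq_zero_or_pos H with hz | hp
  · subst hz
    simp
  have hH0 : (0 : ℝ) < H := by exact_mod_cast hp
  have r2 : Real.log H ≤ c * Real.log X := by
    have h1 := Real.log_le_log (by positivity) hH2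
    rw [Real.log_rpow hH0, one_div, inv_mul_eq_div, div_le_iff₀ hc0] at h1
    have h2 : Real.log X * c' ≤ Real.log X * c := mul_le_mul_of_nonneg_left q1 hlog
    linarith
  have h1 := h X H lio (by omega) lio_Lio hH1 r2
  have h3 : ∑ n ∈ Icc 1 X, 1 / (n : ℝ) * ‖∑ h ∈ Icc 1 H,
      (-1 : ℂ) ^ ArithmeticFunction.cardFactors (n + h) *
        Complex.exp (2 * Real.pi * Complex.I * (θ n * h))‖ ≤
      ∑ n ∈ Icc 1 X, 1 / (n : ℝ) * SS lio H n := by
    refine sum_le_sum fun n _ => ?_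
    exact mul_le_mul_of_nonneg_left (plain_sum H n (θ n)) (by positivity)
  refine h3.trans ((sum_SS_le abs_lio _ _).trans ?_)
  have h4 := mul_le_mul_of_nonneg_left h1 hH0.le
  have h5 : H * ((2 / Real.pi - c) * Real.log X) ≤ H * ((2 / Real.pi - c') * Real.log X) :=
    mul_le_mul_of_nonneg_left (mul_le_mul_of_nonneg_right (by linarith) hlog) hH0.le
  linarith

end Pool.Agent.H22.N4
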